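import Mathlib

/-!
Counting the multiples `c + s y` which lie in an interval `[U / W, (U + 1) / W)` modulo one,
when `y` has a rational approximation with denominator `q`.
-/

set_option autoImplicit false

namespace Pool.Agent.Mult

/-- `x` lies in `[U / W, (U + 1) / W)` modulo one (for `0 ≤ U < W`) -/
def Q (W : ℕ) (U : ℤ) (x : ℝ) : Prop := ⌊(W : ℝ) * x⌋ % (W : ℤ) = U

open Classical in
/-- the number of `s < T` with `c + s y` in the interval -/
noncomputable def cnt (W : ℕ) (U : ℤ) (c y : ℝ) (T : ℕ) : ℕ :=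
  ((Finset.range T).filter (fun s : ℕ => Q W U (c + s * y))).card

lemma cnt_add (W : ℕ) (U : ℤ) (c y : ℝ) (a b : ℕ) :
    cnt W U c y (a + b) = cnt W U c y a + cnt W U (c + a * y) y b := by
  classical
  unfold cnt
  rw [← Nat.count_eq_card_filter_range, ← Nat.count_eq_card_filter_range,
    ← Nat.count_eq_card_filter_range, Nat.count_add]
  congr 1
  rw [Nat.count_eq_card_filter_range, Nat.count_eq_card_filter_range]
  congr 1
  ext s
  simp only [Finset.mem_filter, Finset.mem_range]
  have : c + ((a + s : ℕ) : ℝ) * y = c + (a : ℝ) * y + (s : ℝ) * y := by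
    push_cast
    ring
  rw [this]

lemma coprime_cancel {q : ℕ} {a : ℤ} (hc : IsCoprime a (q : ℤ)) {s t : ℕ} (hs : s < q)
    (ht : t < q) (h : (q : ℤ) ∣ (s : ℤ) * a - t * a) : s = t := by
  rw [← sub_mul] at h
  have h1 : (q : ℤ) ∣ (s : ℤ) - t := hc.symm.dvd_of_dvd_mul_right h
  have h2 := Int.eq_zero_of_abs_lt_dvd h1 (by
    rw [abs_lt]
    constructor <;> omega)
  omega

/-- upper bound for one block of `q` consecutive multiples -/
lemma block_upper {W M : ℕ} (hW : 0 < W) {U : ℤ} {y : ℝ} {r : ℚ} (hq : r.den ≤ M)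
    (hy : |y - r| ≤ 1 / ((M + 1) * r.den)) (c : ℝ) :
    (cnt W U c y r.den : ℝ) ≤ r.den / W + 3 := by
  classical
  set q := r.den with hqdef
  have hqpos : 0 < q := r.den_pos
  have hqR : (0:ℝ) < q := by exact_mod_cast hqpos
  have hWR : (0:ℝ) < W := by exact_mod_cast hW
  have hMR : (q:ℝ) ≤ M := by exact_mod_cast hq
  have hcop : IsCoprime r.num (q : ℤ) := by
    rw [Int.isCoprime_iff_gcd_eq_one]
    exact r.reduced
  have hr : (r : ℝ) = r.num / q := by
    rw [hqdef]
    exact_mod_cast (Rat.num_div_den r).symm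
  set A : ℝ := q * (U / W - c) - 1 with hA
  set B : ℝ := q * ((U + 1) / W - c) + 1 with hB
  set f : ℕ → ℤ := fun s => (s : ℤ) * r.num - q * (⌊(W : ℝ) * (c + s * y)⌋ / (W : ℤ)) with hf
  have hcard : cnt W U c y q ≤ (Finset.Icc ⌈A⌉ ⌊B⌋).card := by
    unfold cnt
    apply Finset.card_le_card_of_injOn f
    · intro s hs
      rw [Finset.mem_coe, Finset.mem_filter, Finset.mem_range] at hs
      obtain ⟨hsq, hQ⟩ := hs
      unfold Q at hQ
      rw [Finset.coe_Icc, Set.mem_Icc]
      have hsR : (s:ℝ) < q := by exact_mod_cast hsq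
      have hs0 : (0:ℝ) ≤ s := Nat.cast_nonneg s
      set n : ℤ := ⌊(W : ℝ) * (c + s * y)⌋ / (W : ℤ) with hn
      have h1 : ⌊(W : ℝ) * (c + s * y)⌋ = U + n * W := by
        have := Int.emod_add_mul_ediv ⌊(W : ℝ) * (c + s * y)⌋ (W : ℤ)
        rw [hQ] at this
        rw [hn]
        linarith
      have h2 : ((U : ℝ) + n * W) ≤ W * (c + s * y) := by
        have := Int.floor_le ((W : ℝ) * (c + s * y))
        rw [h1] at this
        push_cast at this
        exact this
      have h3 : W * (c + s * y) < (U : ℝ) + n * W + 1 := by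
        have := Int.lt_floor_add_one ((W : ℝ) * (c + s * y))
        rw [h1] at this
        push_cast at this
        exact this
      -- distance
      have h4 : |(s:ℝ) * (y - r) * q| ≤ 1 := by
        rw [abs_mul, abs_mul, abs_of_nonneg hs0, abs_of_pos hqR]
        calc (s:ℝ) * |y - r| * q ≤ q * (1 / ((M + 1) * q)) * q := by gcongr
          _ = q / (M + 1) := by field_simp
          _ ≤ 1 := by
            rw [div_le_one (by positivity)]
            linarith
      rw [abs_le] at h4
      have h5 : (s:ℝ) * (y - r) * q = q * (s * y) - s * r.num := by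
        rw [hr]
        field_simp
      rw [h5] at h4
      have h6 : (q:ℝ) * (U / W + n) ≤ q * (c + s * y) := by
        apply mul_le_mul_of_nonneg_left _ hqR.le
        rw [← sub_nonneg] at h2 ⊢
        have : c + s * y - (U / W + n) = (W * (c + s * y) - (U + n * W)) / W := by
          field_simp
        rw [this]
        positivity
      have h7 : (q:ℝ) * (c + s * y) ≤ q * ((U + 1) / W + n) := by
        apply mul_le_mul_of_nonneg_left _ hqR.le
        have h3' := h3.le
        rw [← sub_nonneg] at h3' ⊢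
        have : (U + 1) / W + n - (c + s * y) = (U + n * W + 1 - W * (c + s * y)) / W := by
          field_simp
          ring
        rw [this]
        positivity
      have hfs : ((f s : ℤ) : ℝ) = s * r.num - q * n := by
        rw [hf]
        push_cast
        rw [← hn]
      constructor
      · rw [Int.ceil_le, hfs, hA]
        linarith
      · rw [Int.le_floor, hfs, hB]
        linarith
    · intro s hs t ht hst
      rw [Finset.mem_coe, Finset.mem_filter, Finset.mem_range] at hs ht
      apply coprime_cancel hcop hs.1 ht.1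
      simp only [hf] at hst
      have : (s : ℤ) * r.num - t * r.num = q * (⌊(W : ℝ) * (c + s * y)⌋ / (W : ℤ)
          - ⌊(W : ℝ) * (c + t * y)⌋ / (W : ℤ)) := by linarith
      rw [this]
      exact dvd_mul_right _ _
  have h1 : ((Finset.Icc ⌈A⌉ ⌊B⌋).card : ℝ) ≤ q / W + 3 := by
    rw [Int.card_Icc]
    have h2 : B - A = q / W + 2 := by
      rw [hA, hB]
      field_simp
      ring
    have h3 : (((⌊B⌋ + 1 - ⌈A⌉).toNat : ℕ) : ℝ) = ((max (⌊B⌋ + 1 - ⌈A⌉) 0 : ℤ) : ℝ) := by
      have := Int.toNat_eq_max (⌊B⌋ + 1 - ⌈A⌉)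
      exact_mod_cast this
    rw [h3]
    push_cast
    apply max_le
    · have := Int.floor_le B
      have := Int.le_ceil A
      linarith
    · positivity
  calc (cnt W U c y q : ℝ) ≤ ((Finset.Icc ⌈A⌉ ⌊B⌋).card : ℝ) := by exact_mod_cast hcard
    _ ≤ _ := h1

/-- lower bound for one block of `q` consecutive multiples -/
lemma block_lower {W M : ℕ} (hW : 0 < W) {U : ℤ} (hU0 : 0 ≤ U) (hUW : U < W) {y : ℝ} {r : ℚ}
    (hq : r.den ≤ M) (hy : |y - r| ≤ 1 / ((M + 1) * r.den)) (c : ℝ) :
    (r.den : ℝ) / W - 3 ≤ cnt W U c y r.den := by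
  classical
  set q := r.den with hqdef
  have hqpos : 0 < q := r.den_pos
  have hqR : (0:ℝ) < q := by exact_mod_cast hqpos
  have hWR : (0:ℝ) < W := by exact_mod_cast hW
  have hMR : (q:ℝ) ≤ M := by exact_mod_cast hq
  have hcop : IsCoprime r.num (q : ℤ) := by
    rw [Int.isCoprime_iff_gcd_eq_one]
    exact r.reduced
  have hr : (r : ℝ) = r.num / q := by
    rw [hqdef]
    exact_mod_cast (Rat.num_div_den r).symm
  obtain ⟨a', b', hab⟩ := hcop
  -- a' * num + b' * q = 1
  set A : ℝ := q * (U / W - c) + 1 with hA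
  set B : ℝ := q * ((U + 1) / W - c) - 1 with hB
  have hBA : B - A = q / W - 2 := by
    rw [hA, hB]
    field_simp
    ring
  set g : ℤ → ℕ := fun t => ((t * a') % (q : ℤ)).toNat with hg
  have hqZ : (0:ℤ) < q := by exact_mod_cast hqpos
  have hgspec : ∀ t : ℤ, ((g t : ℕ) : ℤ) = (t * a') % (q : ℤ) := by
    intro t
    rw [hg]
    exact Int.toNat_of_nonneg (Int.emod_nonneg _ hqZ.ne')
  have hglt : ∀ t : ℤ, g t < q := by
    intro t
    have h1 := hgspec t
    have h2 := Int.emod_lt_of_pos (t * a') hqZ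
    omega
  have hgn : ∀ t : ℤ, ∃ n : ℤ, (g t : ℤ) * r.num = t + n * q := by
    intro t
    have h1 := Int.emod_add_mul_ediv (t * a') (q : ℤ)
    rw [← hgspec t] at h1
    refine ⟨- t * b' - ((t * a') / q) * r.num, ?_⟩
    have h2 : (g t : ℤ) = t * a' - q * ((t * a') / q) := by linarith
    rw [h2]
    linear_combination t * hab
  have hcard : (Finset.Ico ⌈A⌉ ⌈B⌉).card ≤ cnt W U c y q := by
    unfold cnt
    apply Finset.card_le_card_of_injOn g
    · intro t ht
      rw [Finset.coe_Ico, Set.mem_Ico, Int.ceil_le, Int.lt_ceil] at ht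
      rw [Finset.mem_coe, Finset.mem_filter, Finset.mem_range]
      refine ⟨hglt t, ?_⟩
      obtain ⟨n, hn⟩ := hgn t
      have hsR : ((g t : ℕ) : ℝ) < q := by exact_mod_cast hglt t
      have hs0 : (0:ℝ) ≤ ((g t : ℕ) : ℝ) := Nat.cast_nonneg _
      have hn' : ((g t : ℕ) : ℝ) * r.num = t + n * q := by exact_mod_cast hn
      have h4 : |((g t : ℕ) : ℝ) * (y - r) * q| ≤ 1 := by
        rw [abs_mul, abs_mul, abs_of_nonneg hs0, abs_of_pos hqR]
        calc ((g t : ℕ) : ℝ) * |y - r| * q ≤ q * (1 / ((M + 1) * q)) * q := by gcongr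
          _ = q / (M + 1) := by field_simp
          _ ≤ 1 := by
            rw [div_le_one (by positivity)]
            linarith
      rw [abs_le] at h4
      have h5 : ((g t : ℕ) : ℝ) * (y - r) * q = q * ((g t : ℕ) * y) - (g t : ℕ) * r.num := by
        rw [hr]
        field_simp
      rw [h5, hn'] at h4
      unfold Q
      have hfl : ⌊(W : ℝ) * (c + (g t : ℕ) * y)⌋ = U + n * W := by
        rw [Int.floor_eq_iff]
        push_cast
        rw [hA, hB] at ht
        obtain ⟨ht1, ht2⟩ := ht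
        have e1 : (q:ℝ) * (U / W + n) ≤ q * (c + (g t : ℕ) * y) := by linarith
        have e2 : (q:ℝ) * (c + (g t : ℕ) * y) < q * ((U + 1) / W + n) := by linarith
        have e3 := le_of_mul_le_mul_left e1 hqR
        have e4 := lt_of_mul_lt_mul_left e2 hqR.le
        constructor
        · calc (U : ℝ) + n * W = W * (U / W + n) := by field_simp
            _ ≤ _ := by gcongr
        · calc (W : ℝ) * (c + (g t : ℕ) * y) < W * ((U + 1) / W + n) := by gcongr
            _ = _ := by
              field_simp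
              ring
      rw [hfl, Int.add_mul_emod_self_right]
      exact Int.emod_eq_of_lt hU0 hUW
    · intro s hs t ht hst
      rw [Finset.coe_Ico, Set.mem_Ico, Int.ceil_le, Int.lt_ceil] at hs ht
      have h1 := hgspec s
      have h2 := hgspec t
      rw [hst, h2] at h1
      -- t a' ≡ s a' mod q
      have h3 : (q : ℤ) ∣ s * a' - t * a' := Int.ModEq.dvd h1
      have h4 : (q : ℤ) ∣ t - s := by
        have : t - s = (s * a' - t * a') * (-r.num) + (t - s) * b' * q := by
          linear_combination -(t - s) * hab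
        rw [this]
        exact dvd_add (h3.mul_right _) (dvd_mul_left _ _)
      have hWR1 : (1:ℝ) ≤ W := by exact_mod_cast hW
      have h5 : (q : ℝ) / W ≤ q := div_le_self hqR.le hWR1
      have h6 : |t - s| < (q : ℤ) := by
        have : |((t - s : ℤ) : ℝ)| < q := by
          push_cast
          rw [abs_lt]
          constructor <;> linarith [hs.1, hs.2, ht.1, ht.2]
        exact_mod_cast this
      have := Int.eq_zero_of_abs_lt_dvd h4 h6
      omega
  have h1 : (q : ℝ) / W - 3 ≤ ((Finset.Ico ⌈A⌉ ⌈B⌉).card : ℝ) := by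
    rw [Int.card_Ico]
    have h3 : (((⌈B⌉ - ⌈A⌉).toNat : ℕ) : ℝ) = ((max (⌈B⌉ - ⌈A⌉) 0 : ℤ) : ℝ) := by
      have := Int.toNat_eq_max (⌈B⌉ - ⌈A⌉)
      exact_mod_cast this
    rw [h3]
    push_cast
    refine le_trans ?_ (le_max_left _ _)
    have := Int.le_ceil B
    have := Int.ceil_lt_add_one A
    linarith
  calc (q : ℝ) / W - 3 ≤ ((Finset.Ico ⌈A⌉ ⌈B⌉).card : ℝ) := h1
    _ ≤ _ := by exact_mod_cast hcard

lemma cnt_le (W : ℕ) (U : ℤ) (c y : ℝ) {a b : ℕ} (h : a ≤ b) :
    cnt W U c y a ≤ cnt W U c y b := by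
  obtain ⟨d, rfl⟩ := Nat.exists_eq_add_of_le h
  rw [cnt_add]
  omega

/-- `T` multiples -/
theorem cnt_total {W M : ℕ} (hW : 0 < W) {U : ℤ} (hU0 : 0 ≤ U) (hUW : U < W) {y : ℝ} {r : ℚ}
    (hq : r.den ≤ M) (hy : |y - r| ≤ 1 / ((M + 1) * r.den)) (c : ℝ) (T : ℕ) :
    |(cnt W U c y T : ℝ) - T / W| ≤ r.den / W + 3 * (T / r.den) + 3 := by
  have hqpos : 0 < r.den := r.den_pos
  have hqR : (0:ℝ) < r.den := by exact_mod_cast hqpos
  have hWR : (0:ℝ) < W := by exact_mod_cast hW
  have hmul : ∀ t : ℕ, ∀ c : ℝ,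
      |(cnt W U c y (t * r.den) : ℝ) - (t * r.den : ℕ) / W| ≤ 3 * t := by
    intro t
    induction t with
    | zero =>
      intro c
      simp [cnt]
    | succ t ih =>
      intro c
      rw [show (t + 1) * r.den = t * r.den + r.den by ring, cnt_add]
      have h1 := ih c
      have h2 := block_upper (U := U) hW hq hy (c + ((t * r.den : ℕ) : ℝ) * y)
      have h3 := block_lower hW hU0 hUW hq hy (c + ((t * r.den : ℕ) : ℝ) * y)
      rw [abs_le] at h1 ⊢
      push_cast at *
      have e : ((t:ℝ) * r.den + r.den) / W = (t:ℝ) * r.den / W + r.den / W := by ring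
      rw [e]
      constructor <;> linarith [h1.1, h1.2]
  obtain ⟨t, ht⟩ : ∃ t, t = T / r.den := ⟨_, rfl⟩
  obtain ⟨s, hs⟩ : ∃ s, s = T % r.den := ⟨_, rfl⟩
  have hT : T = t * r.den + s := by
    rw [ht, hs, mul_comm]
    exact (Nat.div_add_mod T r.den).symm
  have hslt : s < r.den := by
    rw [hs]
    exact Nat.mod_lt _ hqpos
  have htT : (t : ℝ) ≤ T / r.den := by
    rw [le_div_iff₀ hqR]
    have : t * r.den ≤ T := by omega
    exact_mod_cast this
  have h1 := hmul t c
  have h2 := block_upper (U := U) hW hq hy (c + ((t * r.den : ℕ) : ℝ) * y)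
  have h3 : (cnt W U (c + ((t * r.den : ℕ) : ℝ) * y) y s : ℝ)
      ≤ cnt W U (c + ((t * r.den : ℕ) : ℝ) * y) y r.den := by
    exact_mod_cast cnt_le W U _ y hslt.le
  have h4 : (0:ℝ) ≤ cnt W U (c + ((t * r.den : ℕ) : ℝ) * y) y s := Nat.cast_nonneg _
  have h5 : (s:ℝ) / W ≤ r.den / W := by
    have : (s:ℝ) ≤ r.den := by exact_mod_cast hslt.le
    gcongr
  have h6 : (0:ℝ) ≤ (s:ℝ) / W := by positivity
  have h7 : (cnt W U c y T : ℝ) = cnt W U c y (t * r.den)
      + cnt W U (c + ((t * r.den : ℕ) : ℝ) * y) y s := by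
    conv_lhs => rw [hT, cnt_add]
    push_cast
    ring
  have h8 : (T : ℝ) / W = ((t * r.den : ℕ) : ℝ) / W + s / W := by
    conv_lhs => rw [hT]
    push_cast
    ring
  rw [h7, h8]
  rw [abs_le] at h1 ⊢
  constructor <;> linarith [h1.1, h1.2]

end Pool.Agent.Mult
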