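import Mathlib

/-!
Chernoff bounds for the frequency of a word in the blocks of a word, in the form needed for
families of digit sequences in which no word of length `J` occurs too often.
-/

set_option autoImplicit false

namespace Pool.Agent.Mult

/-- extend a finite word by zeros -/
def ext {J : ℕ} (u : Fin J → Fin 10) : ℕ → Fin 10 := fun j => if h : j < J then u ⟨j, h⟩ else 0

open Classical in
/-- number of the blocks `0, …, K - 1` of length `L` of the sequence `a` equal to `w` -/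
noncomputable def X {L : ℕ} (w : Fin L → Fin 10) : ℕ → (ℕ → Fin 10) → ℕ
  | 0, _ => 0
  | K + 1, a => (if ∀ j : Fin L, a j = w j then 1 else 0) + X w K (fun j => a (L + j))

/-- length of `K` blocks -/
def len (L : ℕ) : ℕ → ℕ
  | 0 => 0
  | K + 1 => L + len L K

lemma len_eq (L K : ℕ) : len L K = K * L := by
  induction K with
  | zero => simp [len]
  | succ K ih => rw [len, ih]; ring

lemma ext_append {a b : ℕ} (x : Fin a → Fin 10) (y : Fin b → Fin 10) (j : ℕ) :
    ext (Fin.append x y) (a + j) = ext y j := by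
  unfold ext
  by_cases h : j < b
  · rw [dif_pos (by omega), dif_pos h]
    have : (⟨a + j, by omega⟩ : Fin (a + b)) = Fin.natAdd a ⟨j, h⟩ := rfl
    rw [this, Fin.append_right]
  · rw [dif_neg (by omega), dif_neg h]

lemma ext_append_left {a b : ℕ} (x : Fin a → Fin 10) (y : Fin b → Fin 10) (j : Fin a) :
    ext (Fin.append x y) j = x j := by
  unfold ext
  rw [dif_pos (by omega)]
  have : (⟨(j : ℕ), by omega⟩ : Fin (a + b)) = Fin.castAdd b j := rfl
  rw [this, Fin.append_left]

lemma sum_append {a b : ℕ} (g : (Fin (a + b) → Fin 10) → ℝ) :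
    ∑ u : Fin (a + b) → Fin 10, g u
      = ∑ x : Fin a → Fin 10, ∑ y : Fin b → Fin 10, g (Fin.append x y) := by
  rw [← Fintype.sum_prod_type']
  exact (Fintype.sum_equiv (Fin.appendEquiv a b) _ _ (fun p => rfl)).symm

/-- generating function of the number of blocks equal to `w` -/
lemma gen {L : ℕ} (w : Fin L → Fin 10) (t : ℝ) (K : ℕ) :
    ∑ u : Fin (len L K) → Fin 10, t ^ (X w K (ext u)) = ((10:ℝ) ^ L - 1 + t) ^ K := by
  classical
  induction K with
  | zero =>
    have : ∀ u : Fin (len L 0) → Fin 10, t ^ (X w 0 (ext u)) = 1 := by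
      intro u
      simp [X]
    rw [Finset.sum_congr rfl (fun u _ => this u), Finset.sum_const, Finset.card_univ,
      Fintype.card_fun, Fintype.card_fin, Fintype.card_fin]
    simp [len]
  | succ K ih =>
    have h1 : ∑ u : Fin (len L (K + 1)) → Fin 10, t ^ (X w (K + 1) (ext u))
        = ∑ x : Fin L → Fin 10, ∑ y : Fin (len L K) → Fin 10,
          t ^ (X w (K + 1) (ext (Fin.append x y))) :=
      sum_append (a := L) (b := len L K) (fun u => t ^ (X w (K + 1) (ext u)))
    rw [h1]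
    have h2 : ∀ x : Fin L → Fin 10, ∀ y : Fin (len L K) → Fin 10,
        t ^ (X w (K + 1) (ext (Fin.append x y)))
          = (if x = w then t else 1) * t ^ (X w K (ext y)) := by
      intro x y
      rw [X]
      have e1 : (fun j => ext (Fin.append x y) (L + j)) = ext y := by
        funext j
        exact ext_append x y j
      have e2 : (∀ j : Fin L, ext (Fin.append x y) j = w j) ↔ x = w := by
        constructor
        · intro h
          funext j
          rw [← h j, ext_append_left]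
        · intro h j
          rw [ext_append_left, h]
      rw [e1, pow_add]
      congr 1
      by_cases h : x = w
      · rw [if_pos (e2.mpr h), if_pos h, pow_one]
      · rw [if_neg (fun h' => h (e2.mp h')), if_neg h, pow_zero]
    have h3 : ∀ x : Fin L → Fin 10, ∑ y : Fin (len L K) → Fin 10,
        t ^ (X w (K + 1) (ext (Fin.append x y)))
          = (if x = w then t else 1) * ((10:ℝ) ^ L - 1 + t) ^ K := by
      intro x
      rw [← ih, Finset.mul_sum]
      exact Finset.sum_congr rfl (fun y _ => h2 x y)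
    rw [Finset.sum_congr rfl (fun x _ => h3 x), ← Finset.sum_mul, pow_succ, mul_comm]
    congr 1
    have h4 : ∀ x : Fin L → Fin 10, (if x = w then t else (1:ℝ))
        = 1 + (if x = w then t - 1 else 0) := by
      intro x
      split_ifs <;> ring
    rw [Finset.sum_congr rfl (fun x _ => h4 x), Finset.sum_add_distrib,
      Finset.sum_ite_eq' Finset.univ w (fun _ => t - 1)]
    simp
    ring

lemma gen_shift {L : ℕ} (w : Fin L → Fin 10) (t : ℝ) (K r : ℕ) :
    ∑ u : Fin (r + len L K) → Fin 10, t ^ (X w K (fun j => ext u (r + j)))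
      = 10 ^ r * ((10:ℝ) ^ L - 1 + t) ^ K := by
  rw [sum_append (a := r) (b := len L K) (fun u => t ^ (X w K (fun j => ext u (r + j))))]
  have h1 : ∀ x : Fin r → Fin 10, ∑ y : Fin (len L K) → Fin 10,
      t ^ (X w K (fun j => ext (Fin.append x y) (r + j))) = ((10:ℝ) ^ L - 1 + t) ^ K := by
    intro x
    rw [← gen w t K]
    apply Finset.sum_congr rfl
    intro y _
    have e1 : (fun j => ext (Fin.append x y) (r + j)) = ext y := by
      funext j
      exact ext_append x y j
    rw [e1]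
  rw [Finset.sum_congr rfl (fun x _ => h1 x)]
  simp

/-- `X` depends only on the first `K L` entries -/
lemma X_congr {L : ℕ} (w : Fin L → Fin 10) (K : ℕ) {a b : ℕ → Fin 10}
    (h : ∀ j < len L K, a j = b j) : X w K a = X w K b := by
  classical
  induction K generalizing a b with
  | zero => rfl
  | succ K ih =>
    rw [X, X]
    have h1 : (∀ j : Fin L, a j = w j) ↔ (∀ j : Fin L, b j = w j) := by
      have : ∀ j : Fin L, a j = b j := fun j => h j (by rw [len]; omega)
      constructor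
      · intro h' j
        rw [← this j, h' j]
      · intro h' j
        rw [this j, h' j]
    have h2 : X w K (fun j => a (L + j)) = X w K (fun j => b (L + j)) := by
      apply ih
      intro j hj
      apply h
      rw [len]
      omega
    rw [h2]
    congr 1
    by_cases hb : ∀ j : Fin L, b j = w j
    · rw [if_pos hb, if_pos (h1.mpr hb)]
    · rw [if_neg hb, if_neg (fun h' => hb (h1.mp h'))]

/-- exponential moment over a family of sequences in which no word of length `r + K L` occurs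
more than `c` times -/
lemma moment {ι : Type*} (S : Finset ι) (a : ι → ℕ → Fin 10) {c : ℕ} {L : ℕ}
    (w : Fin L → Fin 10) {t : ℝ} (ht : 0 ≤ t) (K r : ℕ)
    (hc : ∀ u : Fin (r + len L K) → Fin 10,
      ∀ S' ⊆ S, (∀ m ∈ S', ∀ j : Fin (r + len L K), a m j = u j) → S'.card ≤ c) :
    ∑ m ∈ S, t ^ (X w K (fun j => a m (r + j)))
      ≤ c * (10 ^ r * ((10:ℝ) ^ L - 1 + t) ^ K) := by
  classical
  rw [← gen_shift w t K r, Finset.mul_sum]
  have h1 : ∑ m ∈ S, t ^ (X w K (fun j => a m (r + j)))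
      = ∑ u : Fin (r + len L K) → Fin 10,
        ∑ m ∈ S.filter (fun m => (fun j : Fin (r + len L K) => a m j) = u),
          t ^ (X w K (fun j => a m (r + j))) := by
    rw [Finset.sum_fiberwise]
  rw [h1]
  apply Finset.sum_le_sum
  intro u _
  have h2 : ∀ m ∈ S.filter (fun m => (fun j : Fin (r + len L K) => a m j) = u),
      t ^ (X w K (fun j => a m (r + j))) = t ^ (X w K (fun j => ext u (r + j))) := by
    intro m hm
    rw [Finset.mem_filter] at hm
    congr 1
    apply X_congr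
    intro j hj
    unfold ext
    rw [dif_pos (by omega)]
    exact congrFun hm.2 ⟨r + j, by omega⟩
  rw [Finset.sum_congr rfl h2, Finset.sum_const, nsmul_eq_mul]
  apply mul_le_mul_of_nonneg_right _ (pow_nonneg ht _)
  have := hc u (S.filter (fun m => (fun j : Fin (r + len L K) => a m j) = u))
    (Finset.filter_subset _ _) (by
      intro m hm j
      rw [Finset.mem_filter] at hm
      exact congrFun hm.2 j)
  exact_mod_cast this

/-- upper tail -/
lemma upper_tail {ι : Type*} (S : Finset ι) (a : ι → ℕ → Fin 10) {c : ℕ} {L : ℕ}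
    (w : Fin L → Fin 10) (K r : ℕ) {ε : ℝ} (h0 : 0 < ε) (h1 : ε ≤ 1)
    (hc : ∀ u : Fin (r + len L K) → Fin 10,
      ∀ S' ⊆ S, (∀ m ∈ S', ∀ j : Fin (r + len L K), a m j = u j) → S'.card ≤ c)
    (P : ι → Prop) [DecidablePred P]
    (hP : ∀ m ∈ S, P m → (K:ℝ) / 10 ^ L + ε * K ≤ X w K (fun j => a m (r + j))) :
    (((S.filter P).card : ℕ) : ℝ)
      ≤ c * (10 ^ r * ((10:ℝ) ^ L) ^ K) * Real.exp (-(ε ^ 2 / 8 * K)) := by
  have hB : (1:ℝ) ≤ 10 ^ L := one_le_pow₀ (by norm_num)
  have hB0 : (0:ℝ) < 10 ^ L := by positivity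
  set p : ℝ := 1 / 10 ^ L with hp
  have hp0 : 0 < p := by positivity
  have hp1 : p ≤ 1 := by rw [hp, div_le_one hB0]; exact hB
  have hK0 : (0:ℝ) ≤ K := Nat.cast_nonneg K
  -- t = 1 + ε / 2 = exp θ
  have ht : (1:ℝ) ≤ 1 + ε / 2 := by linarith
  have hmom := moment S a w (t := 1 + ε / 2) (by linarith) K r hc
  have hlog : ε / 2 - (ε / 2) ^ 2 / 2 ≤ Real.log (1 + ε / 2) := by
    have := Real.le_log_one_add_of_nonneg (show (0:ℝ) ≤ ε / 2 by linarith)
    refine le_trans ?_ this
    rw [le_div_iff₀ (by linarith)]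
    nlinarith [pow_pos h0 3]
  have hterm : ∀ m ∈ S.filter P,
      Real.exp ((p + ε) * K * (ε / 2 - (ε / 2) ^ 2 / 2)) ≤ (1 + ε / 2) ^ (X w K (fun j => a m (r + j))) := by
    intro m hm
    rw [Finset.mem_filter] at hm
    have h2 := hP m hm.1 hm.2
    rw [← Real.exp_log (show (0:ℝ) < 1 + ε / 2 by linarith), ← Real.exp_nat_mul,
      Real.exp_le_exp]
    have h3 : (p + ε) * K ≤ X w K (fun j => a m (r + j)) := by
      rw [hp]
      calc (1 / 10 ^ L + ε) * (K:ℝ) = (K:ℝ) / 10 ^ L + ε * K := by ring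
        _ ≤ _ := h2
    have h4 : 0 ≤ ε / 2 - (ε / 2) ^ 2 / 2 := by nlinarith
    calc (p + ε) * K * (ε / 2 - (ε / 2) ^ 2 / 2)
        ≤ X w K (fun j => a m (r + j)) * (ε / 2 - (ε / 2) ^ 2 / 2) := by gcongr
      _ ≤ _ := by gcongr
  have hsum : ((S.filter P).card : ℝ) * Real.exp ((p + ε) * K * (ε / 2 - (ε / 2) ^ 2 / 2))
      ≤ c * (10 ^ r * ((10:ℝ) ^ L - 1 + (1 + ε / 2)) ^ K) := by
    refine le_trans ?_ hmom
    rw [← nsmul_eq_mul, ← Finset.sum_const]
    refine (Finset.sum_le_sum hterm).trans ?_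
    apply Finset.sum_le_sum_of_subset_of_nonneg (Finset.filter_subset _ _)
    intro m _ _
    positivity
  have hpow : ((10:ℝ) ^ L - 1 + (1 + ε / 2)) ^ K ≤ ((10:ℝ) ^ L) ^ K * Real.exp (p * (ε / 2) * K) := by
    have e1 : (10:ℝ) ^ L - 1 + (1 + ε / 2) = 10 ^ L * (1 + p * (ε / 2)) := by
      rw [hp]
      field_simp
      ring
    rw [e1, mul_pow]
    apply mul_le_mul_of_nonneg_left _ (by positivity)
    rw [show p * (ε / 2) * K = K * (p * (ε / 2)) by ring, Real.exp_nat_mul]
    gcongr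
    rw [add_comm]
    exact Real.add_one_le_exp _
  have hexp : 0 < Real.exp ((p + ε) * K * (ε / 2 - (ε / 2) ^ 2 / 2)) := Real.exp_pos _
  rw [← le_div_iff₀ hexp] at hsum
  refine hsum.trans ?_
  rw [div_le_iff₀ hexp]
  calc (c:ℝ) * (10 ^ r * ((10:ℝ) ^ L - 1 + (1 + ε / 2)) ^ K)
      ≤ c * (10 ^ r * (((10:ℝ) ^ L) ^ K * Real.exp (p * (ε / 2) * K))) := by gcongr
    _ = c * (10 ^ r * ((10:ℝ) ^ L) ^ K) * Real.exp (p * (ε / 2) * K) := by ring
    _ ≤ c * (10 ^ r * ((10:ℝ) ^ L) ^ K) * Real.exp (-(ε ^ 2 / 8 * K)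
          + (p + ε) * K * (ε / 2 - (ε / 2) ^ 2 / 2)) := by
      gcongr
      have h5 : p * (ε / 2) ≤ -(ε ^ 2 / 8) + (p + ε) * (ε / 2 - (ε / 2) ^ 2 / 2) := by
        have e1 : -(ε ^ 2 / 8) + (p + ε) * (ε / 2 - (ε / 2) ^ 2 / 2) - p * (ε / 2)
            = ε ^ 2 / 8 * (3 - p - ε) := by ring
        have e2 : 0 ≤ ε ^ 2 / 8 * (3 - p - ε) := by
          apply mul_nonneg (by positivity)
          linarith
        linarith
      calc p * (ε / 2) * K ≤ (-(ε ^ 2 / 8) + (p + ε) * (ε / 2 - (ε / 2) ^ 2 / 2)) * K := by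
            gcongr
        _ = _ := by ring
    _ = _ := by
      rw [Real.exp_add]
      ring

/-- lower tail -/
lemma lower_tail {ι : Type*} (S : Finset ι) (a : ι → ℕ → Fin 10) {c : ℕ} {L : ℕ}
    (w : Fin L → Fin 10) (K r : ℕ) {ε : ℝ} (h0 : 0 < ε) (h1 : ε ≤ 1)
    (hc : ∀ u : Fin (r + len L K) → Fin 10,
      ∀ S' ⊆ S, (∀ m ∈ S', ∀ j : Fin (r + len L K), a m j = u j) → S'.card ≤ c)
    (P : ι → Prop) [DecidablePred P]
    (hP : ∀ m ∈ S, P m → (X w K (fun j => a m (r + j)) : ℝ) ≤ (K:ℝ) / 10 ^ L - ε * K) :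
    (((S.filter P).card : ℕ) : ℝ)
      ≤ c * (10 ^ r * ((10:ℝ) ^ L) ^ K) * Real.exp (-(ε ^ 2 / 8 * K)) := by
  have hB : (1:ℝ) ≤ 10 ^ L := one_le_pow₀ (by norm_num)
  have hB0 : (0:ℝ) < 10 ^ L := by positivity
  set p : ℝ := 1 / 10 ^ L with hp
  have hp0 : 0 < p := by positivity
  have hp1 : p ≤ 1 := by rw [hp, div_le_one hB0]; exact hB
  have hK0 : (0:ℝ) ≤ K := Nat.cast_nonneg K
  have ht : (0:ℝ) < 1 - ε / 4 := by linarith
  have hmom := moment S a w (t := 1 - ε / 4) (by linarith) K r hc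
  obtain ⟨ℓ, hℓ⟩ : ∃ ℓ, ℓ = Real.log (1 - ε / 4) := ⟨_, rfl⟩
  have hlog : -(ε / 4) - 2 * (ε / 4) ^ 2 ≤ ℓ := by
    have := Real.one_sub_inv_le_log_of_pos ht
    rw [← hℓ] at this
    refine le_trans ?_ this
    have e1 : (1 - ε / 4)⁻¹ ≤ 1 + ε / 4 + 2 * (ε / 4) ^ 2 := by
      rw [inv_le_iff_one_le_mul₀ ht]
      nlinarith [pow_pos h0 2, pow_pos h0 3]
    linarith
  have hlog2 : ℓ ≤ -(ε / 4) := by
    have := Real.log_le_sub_one_of_pos ht
    rw [← hℓ] at this
    linarith
  have hterm : ∀ m ∈ S.filter P,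
      Real.exp ((p - ε) * K * ℓ) ≤ (1 - ε / 4) ^ (X w K (fun j => a m (r + j))) := by
    intro m hm
    rw [Finset.mem_filter] at hm
    have h2 := hP m hm.1 hm.2
    rw [← Real.exp_log ht, ← hℓ, ← Real.exp_nat_mul, Real.exp_le_exp]
    have h3 : (X w K (fun j => a m (r + j)) : ℝ) ≤ (p - ε) * K := by
      rw [hp]
      calc (X w K (fun j => a m (r + j)) : ℝ) ≤ (K:ℝ) / 10 ^ L - ε * K := h2
        _ = (1 / 10 ^ L - ε) * (K:ℝ) := by ring
    exact mul_le_mul_of_nonpos_right h3 (by linarith)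
  have hsum : ((S.filter P).card : ℝ) * Real.exp ((p - ε) * K * ℓ)
      ≤ c * (10 ^ r * ((10:ℝ) ^ L - 1 + (1 - ε / 4)) ^ K) := by
    refine le_trans ?_ hmom
    rw [← nsmul_eq_mul, ← Finset.sum_const]
    refine (Finset.sum_le_sum hterm).trans ?_
    apply Finset.sum_le_sum_of_subset_of_nonneg (Finset.filter_subset _ _)
    intro m _ _
    positivity
  have hpow : ((10:ℝ) ^ L - 1 + (1 - ε / 4)) ^ K
      ≤ ((10:ℝ) ^ L) ^ K * Real.exp (-(p * (ε / 4) * K)) := by
    have e1 : (10:ℝ) ^ L - 1 + (1 - ε / 4) = 10 ^ L * (1 - p * (ε / 4)) := by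
      rw [hp]
      field_simp
      ring
    rw [e1, mul_pow]
    apply mul_le_mul_of_nonneg_left _ (by positivity)
    rw [show -(p * (ε / 4) * K) = K * (-(p * (ε / 4))) by ring, Real.exp_nat_mul]
    apply pow_le_pow_left₀
    · nlinarith
    · have := Real.add_one_le_exp (-(p * (ε / 4)))
      linarith
  have hexp : 0 < Real.exp ((p - ε) * K * ℓ) := Real.exp_pos _
  rw [← le_div_iff₀ hexp] at hsum
  refine hsum.trans ?_
  rw [div_le_iff₀ hexp]
  calc (c:ℝ) * (10 ^ r * ((10:ℝ) ^ L - 1 + (1 - ε / 4)) ^ K)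
      ≤ c * (10 ^ r * (((10:ℝ) ^ L) ^ K * Real.exp (-(p * (ε / 4) * K)))) := by gcongr
    _ = c * (10 ^ r * ((10:ℝ) ^ L) ^ K) * Real.exp (-(p * (ε / 4) * K)) := by ring
    _ ≤ c * (10 ^ r * ((10:ℝ) ^ L) ^ K) * Real.exp (-(ε ^ 2 / 8 * K)
          + (p - ε) * K * ℓ) := by
      gcongr
      have h5 : -(p * (ε / 4)) ≤ -(ε ^ 2 / 8) + (p - ε) * ℓ := by
        rcases le_total ε p with h | h
        · have e1 : (p - ε) * (-(ε / 4) - 2 * (ε / 4) ^ 2) ≤ (p - ε) * ℓ :=
            mul_le_mul_of_nonneg_left hlog (by linarith)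
          have e2 : 0 ≤ ε ^ 2 / 8 * (1 - p + ε) := by
            apply mul_nonneg (by positivity)
            linarith
          nlinarith
        · have e1 : (ε - p) * ℓ ≤ (ε - p) * (-(ε / 4)) :=
            mul_le_mul_of_nonneg_left hlog2 (by linarith)
          nlinarith [pow_pos h0 2]
      calc -(p * (ε / 4) * K) = -(p * (ε / 4)) * K := by ring
        _ ≤ (-(ε ^ 2 / 8) + (p - ε) * ℓ) * K := by gcongr
        _ = _ := by ring
    _ = _ := by
      rw [Real.exp_add]
      ring

/-- number of the positions `s < n` at which the word `w` stands in `a` -/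
noncomputable def occ {L : ℕ} (w : Fin L → Fin 10) (a : ℕ → Fin 10) (n : ℕ) : ℕ :=
  {s : ℕ | s < n ∧ ∀ j : Fin L, a (s + j) = w j}.ncard

open Classical in
lemma occ_eq {L : ℕ} (w : Fin L → Fin 10) (a : ℕ → Fin 10) (n : ℕ) :
    occ w a n = ∑ s ∈ Finset.range n, if ∀ j : Fin L, a (s + j) = w j then 1 else 0 := by
  unfold occ
  have : {s : ℕ | s < n ∧ ∀ j : Fin L, a (s + j) = w j}
      = ((Finset.range n).filter (fun s => ∀ j : Fin L, a (s + j) = w j) : Finset ℕ) := by
    ext s
    simp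
  rw [this, Set.ncard_coe_finset, Finset.card_filter]

open Classical in
lemma X_eq {L : ℕ} (w : Fin L → Fin 10) (K : ℕ) (a : ℕ → Fin 10) :
    X w K a = ∑ k ∈ Finset.range K, if ∀ j : Fin L, a (k * L + j) = w j then 1 else 0 := by
  induction K generalizing a with
  | zero => simp [X]
  | succ K ih =>
    rw [X, ih, Finset.sum_range_succ']
    have h1 : ∀ k, (if ∀ j : Fin L, a (L + (k * L + j)) = w j then 1 else 0)
        = if ∀ j : Fin L, a ((k + 1) * L + j) = w j then 1 else 0 := by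
      intro k
      have : ∀ j : ℕ, L + (k * L + j) = (k + 1) * L + j := by
        intro j
        ring
      simp only [this]
    rw [Finset.sum_congr rfl (fun k _ => h1 k), add_comm]
    simp

/-- the sliding count is the sum of the counts in the residue classes -/
lemma occ_classes {L : ℕ} (w : Fin L → Fin 10) (a : ℕ → Fin 10) (K : ℕ) :
    occ w a (K * L) = ∑ r ∈ Finset.range L, X w K (fun j => a (r + j)) := by
  classical
  rw [occ_eq]
  have h1 : ∀ f : ℕ → ℕ, ∀ K : ℕ, ∑ s ∈ Finset.range (K * L), f s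
      = ∑ k ∈ Finset.range K, ∑ r ∈ Finset.range L, f (k * L + r) := by
    intro f K
    induction K with
    | zero => simp
    | succ K ih =>
      rw [add_mul, one_mul, Finset.sum_range_add, ih, Finset.sum_range_succ]
  rw [h1, Finset.sum_comm]
  apply Finset.sum_congr rfl
  intro r _
  rw [X_eq]
  apply Finset.sum_congr rfl
  intro k _
  have : ∀ j : ℕ, k * L + r + j = r + (k * L + j) := by
    intro j
    ring
  simp only [this]

/-- all but few sequences of a family in which no word of length `≥ K L` occurs more than `c`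
times have the right frequencies of all words of length `L` among the first `K L` places -/
theorem freq {ι : Type*} (S : Finset ι) (a : ι → ℕ → Fin 10) {c : ℕ} (L K : ℕ)
    {ε : ℝ} (h0 : 0 < ε) (h1 : ε ≤ 1)
    (hc : ∀ J : ℕ, K * L ≤ J → ∀ u : Fin J → Fin 10,
      ∀ S' ⊆ S, (∀ m ∈ S', ∀ j : Fin J, a m j = u j) → S'.card ≤ c)
    (P : ι → Prop) [DecidablePred P]
    (hP : ∀ m ∈ S, P m → ∃ w : Fin L → Fin 10,
      ε * (K * L : ℕ) < |(occ w (a m) (K * L) : ℝ) - ((K * L : ℕ) : ℝ) / 10 ^ L|) :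
    (((S.filter P).card : ℕ) : ℝ)
      ≤ 2 * c * 10 ^ L * ((10 ^ L - 1) / 9) * 10 ^ (K * L) * Real.exp (-(ε ^ 2 / 8 * K)) := by
  classical
  set U : (Fin L → Fin 10) → ℕ → ι → Prop := fun w r m =>
    (K:ℝ) / 10 ^ L + ε * K ≤ X w K (fun j => a m (r + j)) with hU
  set V : (Fin L → Fin 10) → ℕ → ι → Prop := fun w r m =>
    (X w K (fun j => a m (r + j)) : ℝ) ≤ (K:ℝ) / 10 ^ L - ε * K with hV
  have hsub : S.filter P ⊆ Finset.univ.biUnion (fun w : Fin L → Fin 10 =>
      (Finset.range L).biUnion (fun r => S.filter (U w r) ∪ S.filter (V w r))) := by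
    intro m hm
    rw [Finset.mem_filter] at hm
    obtain ⟨w, hw⟩ := hP m hm.1 hm.2
    rw [Finset.mem_biUnion]
    refine ⟨w, Finset.mem_univ _, ?_⟩
    by_contra hno
    rw [Finset.mem_biUnion] at hno
    push Not at hno
    have h2 : ∀ r ∈ Finset.range L,
        |(X w K (fun j => a m (r + j)) : ℝ) - (K:ℝ) / 10 ^ L| ≤ ε * K := by
      intro r hr
      have := hno r hr
      rw [Finset.mem_union, Finset.mem_filter, Finset.mem_filter] at this
      push Not at this
      have h3 := this.1 hm.1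
      have h4 := this.2 hm.1
      simp only [hU, hV, not_le] at h3 h4
      rw [abs_le]
      constructor <;> linarith
    have h3 : |(occ w (a m) (K * L) : ℝ) - ((K * L : ℕ) : ℝ) / 10 ^ L| ≤ ε * (K * L : ℕ) := by
      rw [occ_classes]
      have e1 : (((∑ r ∈ Finset.range L, X w K (fun j => a m (r + j)) : ℕ)) : ℝ)
          - ((K * L : ℕ) : ℝ) / 10 ^ L
          = ∑ r ∈ Finset.range L, ((X w K (fun j => a m (r + j)) : ℝ) - (K:ℝ) / 10 ^ L) := by
        rw [Finset.sum_sub_distrib, Finset.sum_const, Finset.card_range, nsmul_eq_mul]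
        push_cast
        ring
      rw [e1]
      refine (Finset.abs_sum_le_sum_abs _ _).trans ?_
      refine (Finset.sum_le_sum h2).trans ?_
      rw [Finset.sum_const, Finset.card_range, nsmul_eq_mul]
      push_cast
      apply le_of_eq
      ring
    linarith
  have hlen : ∀ r : ℕ, K * L ≤ r + len L K := by
    intro r
    rw [len_eq]
    omega
  have hone : ∀ w : Fin L → Fin 10, ∀ r : ℕ,
      (((S.filter (U w r) ∪ S.filter (V w r)).card : ℕ) : ℝ)
        ≤ 2 * (c * (10 ^ r * ((10:ℝ) ^ L) ^ K) * Real.exp (-(ε ^ 2 / 8 * K))) := by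
    intro w r
    have e1 := upper_tail S a w K r h0 h1 (hc _ (hlen r)) (U w r) (fun m _ h => h)
    have e2 := lower_tail S a w K r h0 h1 (hc _ (hlen r)) (V w r) (fun m _ h => h)
    have e3 : (((S.filter (U w r) ∪ S.filter (V w r)).card : ℕ) : ℝ)
        ≤ ((S.filter (U w r)).card : ℝ) + (S.filter (V w r)).card := by
      exact_mod_cast Finset.card_union_le _ _
    linarith
  have h2 : ((S.filter P).card : ℝ) ≤ ∑ w : Fin L → Fin 10, ∑ r ∈ Finset.range L,
      (2 * (c * (10 ^ r * ((10:ℝ) ^ L) ^ K) * Real.exp (-(ε ^ 2 / 8 * K)))) := by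
    have e1 : (S.filter P).card ≤ ∑ w : Fin L → Fin 10, ∑ r ∈ Finset.range L,
        (S.filter (U w r) ∪ S.filter (V w r)).card := by
      refine (Finset.card_le_card hsub).trans ?_
      refine Finset.card_biUnion_le.trans ?_
      apply Finset.sum_le_sum
      intro w _
      exact Finset.card_biUnion_le
    have e2 : ((S.filter P).card : ℝ) ≤ ((∑ w : Fin L → Fin 10, ∑ r ∈ Finset.range L,
        (S.filter (U w r) ∪ S.filter (V w r)).card : ℕ) : ℝ) := by exact_mod_cast e1
    refine e2.trans ?_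
    push_cast
    apply Finset.sum_le_sum
    intro w _
    apply Finset.sum_le_sum
    intro r _
    exact hone w r
  refine h2.trans (le_of_eq ?_)
  rw [Finset.sum_const, Finset.card_univ]
  have e3 : ∑ r ∈ Finset.range L,
      (2 * ((c:ℝ) * (10 ^ r * ((10:ℝ) ^ L) ^ K) * Real.exp (-(ε ^ 2 / 8 * K))))
      = (∑ r ∈ Finset.range L, (10:ℝ) ^ r)
        * (2 * (c * ((10:ℝ) ^ L) ^ K * Real.exp (-(ε ^ 2 / 8 * K)))) := by
    rw [Finset.sum_mul]
    apply Finset.sum_congr rfl
    intro r _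
    ring
  rw [e3, geom_sum_eq (by norm_num)]
  simp only [Fintype.card_fun, Fintype.card_fin, nsmul_eq_mul]
  push_cast
  rw [← pow_mul, mul_comm L K]
  ring

end Pool.Agent.Mult
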