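import Pool.Agent.Mult.PiMult
import Pool.Agent.Mult.Freq

/-!
Frequencies of words in the digit windows of the multiples of `π`.
-/

set_option autoImplicit false

namespace Pool.Agent.Mult

/-- the digits after the position `i` -/
noncomputable def dseq (x : ℝ) (i : ℕ) : ℕ → Fin 10 := fun s =>
  ⟨(⌊x * 10 ^ (i + 1 + s)⌋ % 10).toNat, by
    have h1 := Int.emod_nonneg ⌊x * 10 ^ (i + 1 + s)⌋ (show (10:ℤ) ≠ 0 by norm_num)
    have h2 := Int.emod_lt_of_pos ⌊x * 10 ^ (i + 1 + s)⌋ (show (0:ℤ) < 10 by norm_num)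
    omega⟩

lemma dseq_eq_iff (x : ℝ) (i s : ℕ) (d : Fin 10) :
    dseq x i s = d ↔ ⌊x * 10 ^ (i + 1 + s)⌋ % 10 = ((d : ℕ) : ℤ) := by
  have h1 := Int.emod_nonneg ⌊x * 10 ^ (i + 1 + s)⌋ (show (10:ℤ) ≠ 0 by norm_num)
  unfold dseq
  rw [Fin.ext_iff]
  simp only
  omega

lemma occ_dseq {L : ℕ} (w : Fin L → Fin 10) (x : ℝ) (i n : ℕ) :
    occ w (dseq x i) n = {s : ℕ | i < s ∧ s ≤ i + n ∧
      ∀ j : Fin L, ⌊x * 10 ^ (s + (j : ℕ))⌋ % 10 = ((w j : ℕ) : ℤ)}.ncard := by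
  unfold occ
  have : {s : ℕ | i < s ∧ s ≤ i + n ∧
      ∀ j : Fin L, ⌊x * 10 ^ (s + (j : ℕ))⌋ % 10 = ((w j : ℕ) : ℤ)}
      = (fun s => i + 1 + s) '' {s : ℕ | s < n ∧ ∀ j : Fin L, dseq x i (s + j) = w j} := by
    ext s
    constructor
    · rintro ⟨h1, h2, h3⟩
      refine ⟨s - (i + 1), ⟨by omega, ?_⟩, by simp only; omega⟩
      intro j
      rw [dseq_eq_iff]
      have e : i + 1 + (s - (i + 1) + (j : ℕ)) = s + (j : ℕ) := by omega
      rw [e]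
      exact h3 j
    · rintro ⟨t, ⟨h1, h2⟩, rfl⟩
      refine ⟨by simp only; omega, by simp only; omega, ?_⟩
      intro j
      have := h2 j
      rw [dseq_eq_iff] at this
      simp only
      have e : i + 1 + t + (j : ℕ) = i + 1 + (t + (j : ℕ)) := by omega
      rw [e]
      exact this
  rw [this, Set.ncard_image_of_injective _ (fun a b h => by simpa using h)]

theorem main : ∃ N₀ : ℕ, ∀ N D : ℕ, N₀ ≤ N → 5 * D ≤ N →
    ∃ i : ℕ, N ≤ i ∧ (i : ℝ) ≤ 6.06 * N + 5.06 * D ∧ ∀ z : ℝ,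
      (∀ (J T : ℕ) (u : Fin J → Fin 10),
        |({m : ℕ | 1 ≤ m ∧ m ≤ T ∧ ∀ j : Fin J,
            ⌊(m * Real.pi + z) * 10 ^ (i + 1 + j)⌋ % 10 = ((u j : ℕ) : ℤ)}.ncard : ℝ)
            - T / 10 ^ J| ≤ 10 ^ D / 10 ^ J + 33 * T / 10 ^ D + 3) ∧
      (∀ (L K : ℕ) (ε : ℝ), 1 ≤ L → D = K * L → 0 < ε → ε ≤ 1 →
        ({m : ℕ | 1 ≤ m ∧ m ≤ 10 ^ D ∧ ∃ w : Fin L → Fin 10,
            ε * D < |({s : ℕ | i < s ∧ s ≤ i + D ∧ ∀ j : Fin L,
              ⌊(m * Real.pi + z) * 10 ^ (s + j)⌋ % 10 = ((w j : ℕ) : ℤ)}.ncard : ℝ)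
              - D / 10 ^ L|}.ncard : ℝ)
          ≤ 9 * 100 ^ L * (10 : ℝ) ^ ((1 - ε ^ 2 / (20 * L)) * D)) := by
  classical
  obtain ⟨N₀, h0⟩ := blocks
  refine ⟨N₀, fun N D hN hD => ?_⟩
  obtain ⟨i, hi1, hi2, hT⟩ := h0 N D hN hD
  refine ⟨i, hi1, hi2, fun z => ⟨fun J T u => hT z J T u, ?_⟩⟩
  intro L K ε hL hDK he0 he1
  have hT38 : ∀ J : ℕ, K * L ≤ J → ∀ u : Fin J → Fin 10,
      ∀ S' ⊆ Finset.Icc 1 (10 ^ D),
        (∀ m ∈ S', ∀ j : Fin J, dseq ((m : ℕ) * Real.pi + z) i j = u j) → S'.card ≤ 38 := by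
    intro J hJ u S' hS' hm
    have h1 := hT z J (10 ^ D) u
    have h2 : S'.card ≤ {m : ℕ | 1 ≤ m ∧ m ≤ 10 ^ D ∧ ∀ j : Fin J,
            ⌊(m * Real.pi + z) * 10 ^ (i + 1 + j)⌋ % 10 = ((u j : ℕ) : ℤ)}.ncard := by
      rw [← Set.ncard_coe_finset]
      apply Set.ncard_le_ncard
      · intro m hmS
        have hmS' := hS' hmS
        rw [Finset.mem_Icc] at hmS'
        refine ⟨hmS'.1, hmS'.2, ?_⟩
        intro j
        exact (dseq_eq_iff _ _ _ _).mp (hm m hmS j)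
      · apply Set.Finite.subset (Set.finite_Icc 1 (10 ^ D))
        rintro m ⟨h1, h2, -⟩
        exact ⟨h1, h2⟩
    have h3 : ((10 ^ D : ℕ) : ℝ) / 10 ^ J ≤ 1 := by
      rw [div_le_one (by positivity)]
      push_cast
      exact pow_le_pow_right₀ (by norm_num) (by omega)
    have h4 : (10:ℝ) ^ D / 10 ^ J ≤ 1 := by
      rw [div_le_one (by positivity)]
      exact pow_le_pow_right₀ (by norm_num) (by omega)
    have h5 : 33 * ((10 ^ D : ℕ) : ℝ) / 10 ^ D = 33 := by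
      push_cast
      field_simp
    rw [h5, abs_le] at h1
    have h6 : (S'.card : ℝ) ≤ 38 := by
      have : (S'.card : ℝ) ≤ ({m : ℕ | 1 ≤ m ∧ m ≤ 10 ^ D ∧ ∀ j : Fin J,
            ⌊(m * Real.pi + z) * 10 ^ (i + 1 + j)⌋ % 10 = ((u j : ℕ) : ℤ)}.ncard : ℝ) := by
        exact_mod_cast h2
      linarith [h1.2]
    exact_mod_cast h6
  set P : ℕ → Prop := fun m => ∃ w : Fin L → Fin 10,
      ε * (K * L : ℕ) < |(occ w (dseq ((m : ℕ) * Real.pi + z) i) (K * L) : ℝ)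
        - ((K * L : ℕ) : ℝ) / 10 ^ L| with hP
  have hfreq := freq (Finset.Icc 1 (10 ^ D)) (fun m : ℕ => dseq ((m : ℕ) * Real.pi + z) i)
    (c := 38) L K he0 he1 hT38 P (fun m _ h => h)
  have hset : {m : ℕ | 1 ≤ m ∧ m ≤ 10 ^ D ∧ ∃ w : Fin L → Fin 10,
            ε * D < |({s : ℕ | i < s ∧ s ≤ i + D ∧ ∀ j : Fin L,
              ⌊(m * Real.pi + z) * 10 ^ (s + j)⌋ % 10 = ((w j : ℕ) : ℤ)}.ncard : ℝ)
              - D / 10 ^ L|} = ((Finset.Icc 1 (10 ^ D)).filter P : Finset ℕ) := by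
    ext m
    rw [Finset.mem_coe, Finset.mem_filter, Finset.mem_Icc]
    simp only [hP, Set.mem_ofPred_eq, occ_dseq, ← hDK]
    tauto
  rw [hset, Set.ncard_coe_finset]
  refine hfreq.trans ?_
  rw [← hDK]
  have hLR : (1:ℝ) ≤ L := by exact_mod_cast hL
  have hKR : (0:ℝ) ≤ K := Nat.cast_nonneg K
  have hDR : (D:ℝ) = K * L := by rw [hDK]; push_cast; ring
  have e1 : (10:ℝ) ^ ((1 - ε ^ 2 / (20 * L)) * (D:ℝ)) = 10 ^ D * Real.exp (-(ε ^ 2 / 20 * K * Real.log 10)) := by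
    have e2 : (1 - ε ^ 2 / (20 * L)) * (D:ℝ) = (D:ℝ) + -(ε ^ 2 / 20 * K) := by
      rw [hDR]
      field_simp
      ring
    rw [e2, Real.rpow_add (by norm_num), Real.rpow_natCast]
    congr 1
    rw [Real.rpow_def_of_pos (by norm_num)]
    congr 1
    ring
  rw [e1]
  have hlog : Real.log 10 ≤ 2.5 := by
    rw [show (10:ℝ) = 2 * 5 by norm_num, Real.log_mul (by norm_num) (by norm_num)]
    have h2 := Real.log_two_lt_d9
    have h5 : Real.log 5 ≤ 1.75 := by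
      have : Real.log 5 = 2 * Real.log 2 + Real.log 1.25 := by
        rw [show (5:ℝ) = 2 ^ 2 * 1.25 by norm_num, Real.log_mul (by norm_num) (by norm_num),
          Real.log_pow]
        push_cast
        ring
      rw [this]
      have := Real.log_le_sub_one_of_pos (show (0:ℝ) < 1.25 by norm_num)
      linarith
    linarith
  have hexp : Real.exp (-(ε ^ 2 / 8 * K)) ≤ Real.exp (-(ε ^ 2 / 20 * K * Real.log 10)) := by
    rw [Real.exp_le_exp]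
    have : ε ^ 2 / 20 * K * Real.log 10 ≤ ε ^ 2 / 20 * K * 2.5 := by gcongr
    linarith
  have h100 : (100:ℝ) ^ L = 10 ^ L * 10 ^ L := by
    rw [← mul_pow]
    norm_num
  have h10 : (0:ℝ) < 10 ^ L := by positivity
  calc 2 * ((38:ℕ):ℝ) * 10 ^ L * ((10 ^ L - 1) / 9) * 10 ^ D * Real.exp (-(ε ^ 2 / 8 * K))
      ≤ 2 * ((38:ℕ):ℝ) * 10 ^ L * (10 ^ L / 9) * 10 ^ D
        * Real.exp (-(ε ^ 2 / 20 * K * Real.log 10)) := by
        gcongr
        linarith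
    _ = 76 / 9 * (10 ^ L * 10 ^ L) * (10 ^ D * Real.exp (-(ε ^ 2 / 20 * K * Real.log 10))) := by
        push_cast
        ring
    _ ≤ 9 * (10 ^ L * 10 ^ L) * (10 ^ D * Real.exp (-(ε ^ 2 / 20 * K * Real.log 10))) := by
        gcongr
        norm_num
    _ = _ := by rw [h100]

end Pool.Agent.Mult
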