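import Pool.Agent.Mult.Main

/-!
MP_57632f_nt, partial result: the digits of the multiples of `π` in windows which start in
every interval `[N, 6.06 N + 5.06 D]`, `N ≥ N₀`, `D ≤ N / 5`.
-/

set_option autoImplicit false

namespace Pool.Agent.Results.MP_57632f_nt.MultipleBlocks

/-- the `i`-th decimal digit of the real number `x` after the point (`i ≥ 1`) -/
noncomputable def digit (x : ℝ) (i : ℕ) : ℤ := ⌊x * 10 ^ i⌋ % 10

/-- the number of positions `s`, `i < s ≤ i + n`, such that the digits of `x` in the positions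
`s, s + 1, …, s + L - 1` are the word `w` -/
noncomputable def occ (x : ℝ) (i n : ℕ) {L : ℕ} (w : Fin L → Fin 10) : ℕ :=
  {s : ℕ | i < s ∧ s ≤ i + n ∧ ∀ j : Fin L, digit x (s + j) = ((w j : ℕ) : ℤ)}.ncard

/-- There is `N₀` such that for all `N ≥ N₀` and `D ≤ N / 5`, with `M = 10 ^ D`, there is a
position `i`, `N ≤ i ≤ 6.06 N + 5.06 D`, such that for every real `z`:
first, if `D = K L`, `L ≥ 1` and `0 < ε ≤ 1`, then for all but at most
`9 * 100 ^ L * M ^ (1 - ε ^ 2 / (20 L))` of the integers `1 ≤ m ≤ M` every word of length `L`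
occurs with frequency between `10 ^ (-L) - ε` and `10 ^ (-L) + ε` at the `D` positions
`i + 1, …, i + D` of `m π + z`;
second, for all `J`, `T` and every word `u` of length `J` the number of integers `1 ≤ m ≤ T`
for which the digits of `m π + z` in the positions `i + 1, …, i + J` are `u` differs from
`T / 10 ^ J` by at most `10 ^ D / 10 ^ J + 33 T / 10 ^ D + 3`. -/
theorem result : ∃ N₀ : ℕ, ∀ N D : ℕ, N₀ ≤ N → 5 * D ≤ N →
    ∃ i : ℕ, N ≤ i ∧ (i : ℝ) ≤ 6.06 * N + 5.06 * D ∧ ∀ z : ℝ,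
      (∀ (L K : ℕ) (ε : ℝ), 1 ≤ L → D = K * L → 0 < ε → ε ≤ 1 →
        ({m : ℕ | 1 ≤ m ∧ m ≤ 10 ^ D ∧ ∃ w : Fin L → Fin 10,
            ε * (D : ℝ) < |(occ (m * Real.pi + z) i D w : ℝ) - (D : ℝ) / 10 ^ L|}.ncard : ℝ)
          ≤ 9 * 100 ^ L * (10 : ℝ) ^ ((1 - ε ^ 2 / (20 * (L : ℝ))) * (D : ℝ))) ∧
      (∀ (J T : ℕ) (u : Fin J → Fin 10),
        |({m : ℕ | 1 ≤ m ∧ m ≤ T ∧
            ∀ j : Fin J, digit (m * Real.pi + z) (i + 1 + j) = ((u j : ℕ) : ℤ)}.ncard : ℝ)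
            - (T : ℝ) / 10 ^ J| ≤ (10 : ℝ) ^ D / 10 ^ J + 33 * (T : ℝ) / 10 ^ D + 3) := by
  obtain ⟨N₀, h⟩ := Mult.main
  refine ⟨N₀, fun N D hN hD => ?_⟩
  obtain ⟨i, h1, h2, h3⟩ := h N D hN hD
  exact ⟨i, h1, h2, fun z => ⟨(h3 z).2, (h3 z).1⟩⟩

end Pool.Agent.Results.MP_57632f_nt.MultipleBlocks
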