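import Pool.Agent.Mult.Equi
import Pool.Agent.Helper44.Hata.Main

/-!
Equidistribution of the digit blocks of the multiples of `π` at suitable positions.
-/

set_option autoImplicit false

namespace Pool.Agent.Mult

/-- the value of the word `u 0, …, u (J - 1)` -/
def val (u : ℕ → ℕ) : ℕ → ℕ
  | 0 => 0
  | J + 1 => 10 * val u J + u J

lemma val_lt {u : ℕ → ℕ} (hu : ∀ j, u j < 10) (J : ℕ) : val u J < 10 ^ J := by
  induction J with
  | zero => simp [val]
  | succ J ih =>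
    have := hu J
    rw [val, pow_succ]
    omega

lemma digits_iff (y : ℝ) {u : ℕ → ℕ} (hu : ∀ j, u j < 10) (J : ℕ) :
    (∀ j < J, ⌊y * (10:ℝ) ^ (j + 1)⌋ % 10 = (u j : ℤ)) ↔
      ⌊((10 ^ J : ℕ) : ℝ) * y⌋ % ((10 ^ J : ℕ) : ℤ) = (val u J : ℤ) := by
  induction J with
  | zero =>
    simp [val]
  | succ J ih =>
    obtain ⟨F, hF⟩ : ∃ F : ℤ, F = ⌊y * (10:ℝ) ^ (J + 1)⌋ := ⟨_, rfl⟩
    have h1 : ⌊((10 ^ J : ℕ) : ℝ) * y⌋ = F / 10 := by
      have h2 := Int.floor_div_natCast (y * (10 : ℝ) ^ (J + 1)) 10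
      rw [← hF] at h2
      rw [← Nat.cast_ofNat (R := ℤ) (n := 10)] 
      rw [← h2]
      congr 1
      push_cast
      rw [pow_succ]
      field_simp
    have h2 : ⌊((10 ^ (J + 1) : ℕ) : ℝ) * y⌋ = F := by
      rw [hF]
      congr 1
      push_cast
      ring
    rw [h2]
    rw [h1] at ih
    have h3 : (∀ j < J + 1, ⌊y * (10:ℝ) ^ (j + 1)⌋ % 10 = (u j : ℤ)) ↔
        (∀ j < J, ⌊y * (10:ℝ) ^ (j + 1)⌋ % 10 = (u j : ℤ)) ∧ F % 10 = (u J : ℤ) := by
      constructor
      · intro h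
        refine ⟨fun j hj => h j (by omega), ?_⟩
        rw [hF]
        exact h J (by omega)
      · rintro ⟨h, h'⟩ j hj
        rcases Nat.lt_succ_iff_lt_or_eq.mp hj with hj | hj
        · exact h j hj
        · rw [hj, ← hF]
          exact h'
    rw [h3, ih]
    obtain ⟨P, hP⟩ : ∃ P : ℤ, P = ((10 ^ J : ℕ) : ℤ) := ⟨_, rfl⟩
    have hPpos : 0 < P := by rw [hP]; positivity
    have hP1 : ((10 ^ (J + 1) : ℕ) : ℤ) = 10 * P := by
      rw [hP]
      push_cast
      ring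
    have hv : ((val u (J + 1) : ℕ) : ℤ) = 10 * (val u J : ℤ) + u J := by
      rw [val]
      push_cast
      ring
    have huJ := hu J
    rw [hP1, hv, ← hP]
    have e1 := Int.emod_add_mul_ediv F 10
    have e2 := Int.emod_nonneg F (show (10:ℤ) ≠ 0 by norm_num)
    have e3 := Int.emod_lt_of_pos F (show (0:ℤ) < 10 by norm_num)
    have e4 := Int.emod_add_mul_ediv (F / 10) P
    have e5 := Int.emod_nonneg (F / 10) hPpos.ne'
    have e6 := Int.emod_lt_of_pos (F / 10) hPpos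
    have e7 : F % (10 * P) = 10 * ((F / 10) % P) + F % 10 := by
      have e8 : F = 10 * ((F / 10) % P) + F % 10 + (10 * P) * ((F / 10) / P) := by
        linear_combination -e1 - 10 * e4
      conv_lhs => rw [e8]
      rw [Int.add_mul_emod_self_left]
      apply Int.emod_eq_of_lt <;> omega
    rw [e7]
    omega

lemma step {M : ℕ} {α : ℝ} {n : ℕ} {r r' : ℚ}
    (h : |α * 10 ^ n - r| ≤ 1 / ((M + 1) * r.den)) (hr : 11 * r.den ≤ M)
    (h' : |α * 10 ^ (n + 1) - r'| ≤ 1 / ((M + 1) * r'.den)) (hr' : 11 * r'.den ≤ M) :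
    r' = 10 * r := by
  have hq : (0:ℝ) < r.den := by exact_mod_cast r.den_pos
  have hq' : (0:ℝ) < r'.den := by exact_mod_cast r'.den_pos
  have hM : (0:ℝ) < (M:ℝ) + 1 := by positivity
  have e : (r : ℝ) = r.num / r.den := by exact_mod_cast (Rat.num_div_den r).symm
  have e' : (r' : ℝ) = r'.num / r'.den := by exact_mod_cast (Rat.num_div_den r').symm
  obtain ⟨Z, hZ⟩ : ∃ Z : ℤ, Z = 10 * r.num * r'.den - r'.num * r.den := ⟨_, rfl⟩
  have h1 : (Z : ℝ) = r.den * r'.den * (10 * r - r') := by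
    rw [hZ, e, e']
    push_cast
    field_simp
  have h2 : |10 * (r:ℝ) - r'| ≤ 10 / ((M + 1) * r.den) + 1 / ((M + 1) * r'.den) := by
    have : 10 * (r:ℝ) - r' = (α * 10 ^ (n + 1) - r') - 10 * (α * 10 ^ n - r) := by
      rw [pow_succ]
      ring
    rw [this]
    refine (abs_sub _ _).trans ?_
    rw [abs_mul, abs_of_pos (show (0:ℝ) < 10 by norm_num)]
    have : 10 / ((M + 1) * r.den) = 10 * (1 / ((M + 1) * (r.den:ℝ))) := by ring
    rw [this]
    linarith [mul_le_mul_of_nonneg_left h (show (0:ℝ) ≤ 10 by norm_num)]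
  have h3 : |(Z : ℝ)| < 1 := by
    rw [h1, abs_mul, abs_of_pos (by positivity)]
    calc (r.den : ℝ) * r'.den * |10 * (r:ℝ) - r'|
        ≤ r.den * r'.den * (10 / ((M + 1) * r.den) + 1 / ((M + 1) * r'.den)) := by gcongr
      _ = (10 * r'.den + r.den) / (M + 1) := by
        field_simp
      _ < 1 := by
        rw [div_lt_one hM]
        have a1 : 11 * (r.den:ℝ) ≤ M := by exact_mod_cast hr
        have a2 : 11 * (r'.den:ℝ) ≤ M := by exact_mod_cast hr'
        linarith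
  have h4 : Z = 0 := by
    have : |Z| < 1 := by exact_mod_cast h3
    rwa [Int.abs_lt_one_iff] at this
  rw [h4] at h1
  have h5 : 10 * (r:ℝ) - r' = 0 := by
    have h6 : (r.den : ℝ) * r'.den ≠ 0 := by positivity
    have h7 : (r.den : ℝ) * r'.den * (10 * (r:ℝ) - r') = 0 := by
      rw [← h1]
      simp
    rcases mul_eq_zero.mp h7 with h | h
    · exact absurd h h6
    · exact h
  have h6 : (r' : ℝ) = ((10 * r : ℚ) : ℝ) := by
    push_cast
    linarith
  exact_mod_cast h6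

/-- In every interval `[N, 6.06 N + 5.06 D]` there is a position `i` such that `π 10 ^ i` has a
rational approximation in the sense of Dirichlet with denominator of size `10 ^ D`. -/
theorem exists_good : ∃ N₀ : ℕ, ∀ N D : ℕ, N₀ ≤ N → 5 * D ≤ N →
    ∃ i : ℕ, N ≤ i ∧ (i : ℝ) ≤ 6.06 * N + 5.06 * D ∧
      ∃ r : ℚ, r.den ≤ 10 ^ D ∧ 10 ^ D < 11 * r.den ∧
        |Real.pi * 10 ^ i - r| ≤ 1 / (((10 ^ D : ℕ) + 1) * r.den) := by
  obtain ⟨X0, hX0⟩ := Helper44.Hata.main_bound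
  obtain ⟨M1, hM1⟩ := exists_nat_gt X0
  refine ⟨max M1 2000, ?_⟩
  intro N D hN hD
  have hN1 : M1 ≤ N := (le_max_left _ _).trans hN
  have hN2 : 2000 ≤ N := (le_max_right _ _).trans hN
  by_contra hcon
  push Not at hcon
  have hNR : (2000:ℝ) ≤ N := by exact_mod_cast hN2
  have hDR : (0:ℝ) ≤ D := Nat.cast_nonneg D
  obtain ⟨E, hE⟩ : ∃ E : ℕ, E = ⌊6.06 * (N:ℝ) + 5.06 * D⌋₊ := ⟨_, rfl⟩
  have hEle : (E : ℝ) ≤ 6.06 * (N:ℝ) + 5.06 * D := by
    rw [hE]
    exact Nat.floor_le (by positivity)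
  have hElt : 6.06 * (N:ℝ) + 5.06 * D < E + 1 := by
    rw [hE]
    exact Nat.lt_floor_add_one _
  have hEN : N ≤ E := by
    have h1 : (N:ℝ) < ((E + 1 : ℕ) : ℝ) := by
      push_cast
      linarith
    have h2 : N < E + 1 := by exact_mod_cast h1
    omega
  obtain ⟨K, hK⟩ : ∃ K, E = N + K := ⟨E - N, by omega⟩
  have hdir : ∀ n : ℕ, ∃ r : ℚ,
      |Real.pi * 10 ^ n - r| ≤ 1 / (((10 ^ D : ℕ) + 1) * r.den) ∧ r.den ≤ 10 ^ D := by
    intro n
    exact Real.exists_rat_abs_sub_le_and_den_le (Real.pi * 10 ^ n)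
      (n := 10 ^ D) (by positivity)
  choose r hr1 hr2 using hdir
  have hsmall : ∀ n, N ≤ n → n ≤ N + K → 11 * (r n).den ≤ 10 ^ D := by
    intro n hn1 hn2
    by_contra hlt
    push Not at hlt
    have h1 : (n : ℝ) ≤ 6.06 * (N:ℝ) + 5.06 * D := by
      refine le_trans ?_ hEle
      rw [hK]
      exact_mod_cast hn2
    exact absurd (hr1 n) (not_le.mpr (hcon n hn1 h1 (r n) (hr2 n) hlt))
  have hchain : ∀ k, k ≤ K → r (N + k) = 10 ^ k * r N := by
    intro k
    induction k with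
    | zero =>
      intro _
      simp
    | succ k ih =>
      intro hk
      have h1 := ih (by omega)
      have h2 := step (M := 10 ^ D) (α := Real.pi) (n := N + k) (hr1 _)
        (hsmall _ (by omega) (by omega)) (hr1 (N + k + 1)) (hsmall _ (by omega) (by omega))
      rw [show N + (k + 1) = N + k + 1 by ring, h2, h1]
      ring
  -- the denominator
  obtain ⟨q, hq⟩ : ∃ q : ℕ, q = (r N).den * 10 ^ N := ⟨_, rfl⟩
  have hden : 0 < (r N).den := (r N).den_pos
  have hqpos : 0 < q := by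
    rw [hq]
    positivity
  have hqR0 : (0:ℝ) < q := by exact_mod_cast hqpos
  have hdenR : (0:ℝ) < (r N).den := by exact_mod_cast hden
  have hden1 : (1:ℝ) ≤ (r N).den := by exact_mod_cast hden
  have hqR : (q:ℝ) = (r N).den * 10 ^ N := by
    rw [hq]
    push_cast
    ring
  have hdenle : ((r N).den : ℝ) ≤ 10 ^ D := by exact_mod_cast hr2 N
  have hqle : (q:ℝ) ≤ 10 ^ (N + D) := by
    rw [hqR, pow_add, mul_comm]
    gcongr
  have hdvd : 2 ^ N ∣ q := by
    rw [hq]
    have : (2:ℕ) ^ N ∣ 10 ^ N := pow_dvd_pow_of_dvd (by norm_num) N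
    exact this.mul_left _
  have hq16 : (q : ℝ) ≤ 16 ^ N := by
    have h1 : (q : ℝ) ^ 5 ≤ (16 ^ N) ^ 5 := by
      calc (q : ℝ) ^ 5 ≤ (10 ^ (N + D)) ^ 5 := by gcongr
        _ = 10 ^ (5 * N + 5 * D) := by
            rw [← pow_mul]
            congr 1
            ring
        _ ≤ 10 ^ (6 * N) := pow_le_pow_right₀ (by norm_num) (by omega)
        _ = (10 ^ 6) ^ N := by rw [pow_mul]
        _ ≤ (16 ^ 5) ^ N := pow_le_pow_left₀ (by norm_num) (by norm_num) N
        _ = (16 ^ N) ^ 5 := by rw [← pow_mul, ← pow_mul, mul_comm]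
    exact le_of_pow_le_pow_left₀ (by norm_num) (by positivity) h1
  have hlogle : Real.log q ≤ ((N:ℝ) + D) * Real.log 10 := by
    have : ((N:ℝ) + D) * Real.log 10 = Real.log (10 ^ (N + D)) := by
      rw [Real.log_pow]
      push_cast
      ring
    rw [this]
    exact Real.log_le_log hqR0 hqle
  have hlogge : X0 ≤ Real.log q := by
    have h1 : (N : ℝ) ≤ Real.log q := by
      rw [Real.le_log_iff_exp_le hqR0]
      have h2 : Real.exp 1 ≤ 10 := by
        have := Real.exp_one_lt_d9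
        linarith
      calc Real.exp N = Real.exp 1 ^ N := by rw [← Real.exp_nat_mul, mul_one]
        _ ≤ 10 ^ N := pow_le_pow_left₀ (Real.exp_pos 1).le h2 N
        _ = 1 * 10 ^ N := (one_mul _).symm
        _ ≤ (r N).den * 10 ^ N := by gcongr
        _ = q := hqR.symm
    have h2 : (M1 : ℝ) ≤ N := by exact_mod_cast hN1
    linarith
  have hmain := hX0 q N (r N).num hqpos hlogge hdvd hq16
  -- upper bound
  have hup : |Real.pi - (r N).num / q| * 10 ^ (N + K) < 1 / 10 ^ D := by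
    have h1 := hr1 (N + K)
    rw [hchain K le_rfl] at h1
    have h2 : Real.pi * 10 ^ (N + K) - (((10 ^ K * r N : ℚ)) : ℝ)
        = (Real.pi - (r N).num / q) * 10 ^ (N + K) := by
      have e : ((r N : ℚ) : ℝ) = (r N).num / (r N).den := by
        exact_mod_cast (Rat.num_div_den (r N)).symm
      push_cast
      rw [e, hqR, pow_add]
      field_simp
    rw [h2, abs_mul, abs_of_pos (show (0:ℝ) < 10 ^ (N + K) by positivity)] at h1
    refine lt_of_le_of_lt h1 ?_
    apply one_div_lt_one_div_of_lt (by positivity)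
    have h3 : (1:ℝ) ≤ (((10:ℚ) ^ K * r N).den : ℝ) := by
      exact_mod_cast ((10:ℚ) ^ K * r N).den_pos
    push_cast
    nlinarith [show (0:ℝ) < 10 ^ D by positivity]
  have h10 : (0:ℝ) < Real.log 10 := Real.log_pos (by norm_num)
  have hfin : Real.exp (-6.059 * Real.log q) * 10 ^ (N + K) < 1 / 10 ^ D := by
    refine lt_trans ?_ hup
    gcongr
  have e1 : (1:ℝ) / 10 ^ D = Real.exp (-(D * Real.log 10)) := by
    rw [Real.exp_neg, ← Real.log_pow, Real.exp_log (by positivity), one_div]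
  have e2 : (10:ℝ) ^ (N + K) = Real.exp ((N + K : ℕ) * Real.log 10) := by
    rw [← Real.log_pow, Real.exp_log (by positivity)]
  rw [e1, e2, ← Real.exp_add, Real.exp_lt_exp] at hfin
  have hfin2 : ((N + K : ℕ) : ℝ) * Real.log 10 + D * Real.log 10
      < 6.059 * (((N:ℝ) + D) * Real.log 10) := by
    nlinarith
  have hfin3 : (((N + K : ℕ) : ℝ) + D) * Real.log 10
      < (6.059 * ((N:ℝ) + D)) * Real.log 10 := by linarith
  have hfin4 := lt_of_mul_lt_mul_right hfin3 h10.le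
  rw [← hK] at hfin4
  linarith

/-- The block count at the position `i`. -/
theorem blocks : ∃ N₀ : ℕ, ∀ N D : ℕ, N₀ ≤ N → 5 * D ≤ N →
    ∃ i : ℕ, N ≤ i ∧ (i : ℝ) ≤ 6.06 * N + 5.06 * D ∧
      ∀ (z : ℝ) (J T : ℕ) (u : Fin J → Fin 10),
        |({m : ℕ | 1 ≤ m ∧ m ≤ T ∧ ∀ j : Fin J,
            ⌊(m * Real.pi + z) * 10 ^ (i + 1 + j)⌋ % 10 = ((u j : ℕ) : ℤ)}.ncard : ℝ)
            - T / 10 ^ J| ≤ 10 ^ D / 10 ^ J + 33 * T / 10 ^ D + 3 := by
  classical
  obtain ⟨N₀, h0⟩ := exists_good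
  refine ⟨N₀, fun N D hN hD => ?_⟩
  obtain ⟨i, hi1, hi2, r, hr1, hr2, hr3⟩ := h0 N D hN hD
  refine ⟨i, hi1, hi2, ?_⟩
  intro z J T u
  set v : ℕ → ℕ := fun j => if h : j < J then (u ⟨j, h⟩ : ℕ) else 0 with hv
  have hv10 : ∀ j, v j < 10 := by
    intro j
    simp only [hv]
    split_ifs with h
    · exact (u ⟨j, h⟩).isLt
    · norm_num
  set y : ℝ := Real.pi * 10 ^ i with hy
  set c : ℝ := y + z * 10 ^ i with hc
  have hset : {m : ℕ | 1 ≤ m ∧ m ≤ T ∧ ∀ j : Fin J,
      ⌊(m * Real.pi + z) * 10 ^ (i + 1 + j)⌋ % 10 = ((u j : ℕ) : ℤ)}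
      = (((Finset.range T).filter
        (fun s : ℕ => Q (10 ^ J) (val v J) (c + s * y))).image (fun s => s + 1) : Finset ℕ) := by
    ext m
    simp only [Set.mem_ofPred_eq, Finset.coe_image, Finset.coe_filter, Finset.mem_range,
      Set.mem_image]
    have key : ∀ s : ℕ, Q (10 ^ J) (val v J) (c + s * y) ↔ ∀ j : Fin J,
        ⌊(((s + 1 : ℕ) : ℝ) * Real.pi + z) * 10 ^ (i + 1 + (j:ℕ))⌋ % 10 = ((u j : ℕ) : ℤ) := by
      intro s
      unfold Q
      rw [← digits_iff (c + s * y) hv10 J]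
      have e : ∀ j : ℕ, (((s + 1 : ℕ) : ℝ) * Real.pi + z) * 10 ^ (i + 1 + j)
          = (c + s * y) * 10 ^ (j + 1) := by
        intro j
        rw [hc, hy]
        push_cast
        rw [show i + 1 + j = i + (j + 1) by ring, pow_add]
        ring
      constructor
      · intro h j
        rw [e, h j j.isLt]
        simp [hv]
      · intro h j hj
        have := h ⟨j, hj⟩
        rw [e] at this
        rw [this]
        simp [hv, hj]
    constructor
    · rintro ⟨h1, h2, h3⟩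
      refine ⟨m - 1, ⟨by omega, ?_⟩, by omega⟩
      rw [key, Nat.sub_add_cancel h1]
      exact h3
    · rintro ⟨s, ⟨hs1, hs2⟩, rfl⟩
      refine ⟨by omega, by omega, ?_⟩
      exact (key s).mp hs2
  rw [hset, Set.ncard_coe_finset, Finset.card_image_of_injective _ (add_left_injective 1)]
  have hval : val v J < 10 ^ J := val_lt hv10 J
  have hr3' : |y - r| ≤ 1 / (((10 ^ D : ℕ) + 1) * r.den) := hr3
  have hmain := cnt_total (W := 10 ^ J) (M := 10 ^ D) (U := (val v J : ℤ)) (by positivity)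
    (by positivity) (by exact_mod_cast hval) hr1 hr3' c T
  unfold cnt at hmain
  have hq : (0:ℝ) < r.den := by exact_mod_cast r.den_pos
  have hq1 : (r.den : ℝ) ≤ 10 ^ D := by exact_mod_cast hr1
  have hq2 : (10:ℝ) ^ D < 11 * r.den := by exact_mod_cast hr2
  push_cast at hmain
  refine hmain.trans ?_
  have e1 : (r.den : ℝ) / 10 ^ J ≤ 10 ^ D / 10 ^ J := by gcongr
  have e2 : 3 * ((T:ℝ) / r.den) ≤ 33 * T / 10 ^ D := by
    rw [le_div_iff₀ (by positivity), ← mul_div_assoc, div_mul_eq_mul_div, div_le_iff₀ hq]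
    have hT : (0:ℝ) ≤ T := Nat.cast_nonneg T
    nlinarith
  linarith

end Pool.Agent.Mult
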